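import Pool.Agent.Helper34_MT.Con1

/-!
# Analytic solutions at the conifold point (MT100B): the trace of the residue is a real number
-/

set_option autoImplicit false

namespace Pool.Agent.MT100B.H34

open Filter Topology Set Pool.Agent.MT100.H34

variable {r : ℕ}

section rec

variable (la : Fin r) (c : Fin r → ℝ) (C : ℝ) (s : ℝ) (y0 : Fin r → ℝ)

/-- Coefficients of the analytic solution with initial value `y0`. -/
noncomputable def ys : ℕ → Fin r → ℝ
  | 0 => y0
  | k + 1 => fun i =>
    -(C * ((k : ℝ) + 1))⁻¹ * ((sh (ys k) i + k * ys k i) -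
      if i = la then (∑ a, c a * (sh (ys k) a + k * ys k a)) / ((k : ℝ) + 1 + s) else 0)

theorem ys_succ (k : ℕ) (i : Fin r) : ys la c C s y0 (k + 1) i =
    -(C * ((k : ℝ) + 1))⁻¹ * ((sh (ys la c C s y0 k) i + k * ys la c C s y0 k i) -
      if i = la then (∑ a, c a * (sh (ys la c C s y0 k) a + k * ys la c C s y0 k a)) /
        ((k : ℝ) + 1 + s) else 0) := rfl

theorem ys_bound {C : ℝ} (hC : 0 < C) (hs : 0 ≤ s) {M : ℝ} (hM : ∀ i, |y0 i| ≤ M) (hM0 : 0 ≤ M) (k : ℕ)
    (i : Fin r) : |ys la c C s y0 k i| ≤ M * ((1 + ∑ a, |c a|) / C) ^ k := by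
  induction k generalizing i with
  | zero => simpa [ys] using hM i
  | succ k ih =>
    set K : ℝ := (1 + ∑ a, |c a|) / C with hK
    have hS : 0 ≤ ∑ a, |c a| := Finset.sum_nonneg fun a _ => abs_nonneg _
    have hK0 : 0 ≤ K := by positivity
    set B : ℝ := M * K ^ k with hB
    have hB0 : 0 ≤ B := by positivity
    have hk0 : (0 : ℝ) ≤ k := Nat.cast_nonneg k
    have hx : ∀ a, |sh (ys la c C s y0 k) a + k * ys la c C s y0 k a| ≤ ((k : ℝ) + 1) * B := by
      intro a
      calc _ ≤ |sh (ys la c C s y0 k) a| + |(k : ℝ) * ys la c C s y0 k a| := abs_add_le _ _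
        _ ≤ B + k * B := by
            rw [abs_mul, Nat.abs_cast]
            gcongr
            · exact abs_sh_le _ ih hB0 a
            · exact ih a
        _ = _ := by ring
    rw [ys_succ, abs_mul, abs_neg, abs_inv, abs_of_pos (show 0 < C * ((k : ℝ) + 1) by positivity)]
    have h1 : |(if i = la then (∑ a, c a * (sh (ys la c C s y0 k) a + k * ys la c C s y0 k a)) /
        ((k : ℝ) + 1 + s) else 0)| ≤ (∑ a, |c a|) * (((k : ℝ) + 1) * B) := by
      have h0 : 0 ≤ (∑ a, |c a|) * (((k : ℝ) + 1) * B) := by positivity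
      split_ifs with hi
      · rw [abs_div, abs_of_pos (show (0 : ℝ) < (k : ℝ) + 1 + s by positivity)]
        have h2 : |∑ a, c a * (sh (ys la c C s y0 k) a + k * ys la c C s y0 k a)| ≤
            (∑ a, |c a|) * (((k : ℝ) + 1) * B) := by
          refine (Finset.abs_sum_le_sum_abs _ _).trans ?_
          rw [Finset.sum_mul]
          refine Finset.sum_le_sum fun a _ => ?_
          rw [abs_mul]
          exact mul_le_mul_of_nonneg_left (hx a) (abs_nonneg _)
        refine (div_le_self (abs_nonneg _) ?_).trans h2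
        linarith
      · simpa using h0
    calc (C * ((k : ℝ) + 1))⁻¹ * |_| ≤ (C * ((k : ℝ) + 1))⁻¹ *
          ((1 + ∑ a, |c a|) * (((k : ℝ) + 1) * B)) := by
            refine mul_le_mul_of_nonneg_left ?_ (by positivity)
            refine (abs_sub _ _).trans ?_
            calc _ ≤ ((k : ℝ) + 1) * B + (∑ a, |c a|) * (((k : ℝ) + 1) * B) := add_le_add (hx i) h1
              _ = _ := by ring
      _ = M * K ^ (k + 1) := by
            rw [hB, pow_succ, hK]
            field_simp

/-- The defining relation of the coefficients. -/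
theorem ys_rel {C : ℝ} (hC : 0 < C) {s : ℝ} (hs : 0 < s) (hc : c la = s) (k : ℕ) (i : Fin r) :
    C * (((k : ℝ) + 1) * ys la c C s y0 (k + 1) i) + k * ys la c C s y0 k i =
      -(sh (ys la c C s y0 k) i) -
        if i = la then C * ∑ a, c a * ys la c C s y0 (k + 1) a else 0 := by
  have hk0 : (0 : ℝ) ≤ k := Nat.cast_nonneg k
  set x : Fin r → ℝ := fun a => sh (ys la c C s y0 k) a + k * ys la c C s y0 k a with hx
  have h1 : ∀ i, ys la c C s y0 (k + 1) i = -(C * ((k : ℝ) + 1))⁻¹ * (x i -
      if i = la then (∑ a, c a * x a) / ((k : ℝ) + 1 + s) else 0) := fun i => ys_succ _ _ _ _ _ _ _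
  have h2 : ∑ a, c a * ys la c C s y0 (k + 1) a = -(C * ((k : ℝ) + 1))⁻¹ *
      ((∑ a, c a * x a) * (((k : ℝ) + 1) / ((k : ℝ) + 1 + s))) := by
    have h3 : ∀ a, c a * ys la c C s y0 (k + 1) a = -(C * ((k : ℝ) + 1))⁻¹ * (c a * x a) +
        (if a = la then (C * ((k : ℝ) + 1))⁻¹ * (c la * ((∑ a, c a * x a) / ((k : ℝ) + 1 + s)))
          else 0) := by
      intro a
      rw [h1]
      split_ifs with h
      · rw [h]; ring
      · ring
    rw [Finset.sum_congr rfl fun a _ => h3 a, Finset.sum_add_distrib, ← Finset.mul_sum,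
      Finset.sum_ite_eq' Finset.univ la, if_pos (Finset.mem_univ _), hc]
    field_simp
    ring
  rw [h2, h1]
  have h4 : sh (ys la c C s y0 k) i = x i - k * ys la c C s y0 k i := by rw [hx]; ring
  rw [h4]
  split_ifs with h
  · field_simp
    ring
  · field_simp
    ring

end rec

end Pool.Agent.MT100B.H34
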