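import Pool.Agent.Helper34_MTB.C1
import Pool.Agent.Helper34_MT.Con3

/-!
# Structure of the solutions at the conifold point (MT100B)
-/

set_option autoImplicit false

namespace Pool.Agent.MT100B.H34

open Filter Topology Set Matrix
open Pool.Agent.MT100.H34 (ser Geo Geo.nonneg Geo.summable Geo.analyticAt
  Geo.hasDerivAt eventually_small ser_zero Sm Sm.add Sm.mul ser_add ser_mul ser_succ Sm.succ ser_sum sh
  sh_sum sum_aux analyticAt_det analyticAt_inv const_of_deriv_zero Kc Kc_pos)

section Z

variable {r : ℕ} (la : Fin r) (c : Fin r → ℝ) (C : ℝ) (s : ℝ)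

/-- initial values in the kernel of `c` -/
noncomputable def y0 (j : Fin r) (i : Fin r) : ℝ :=
  (if i = j then 1 else 0) - if i = la then c j / s else 0

/-- The matrix whose columns are analytic solutions; the last column is the last unit vector. -/
noncomputable def Zm (u : ℝ) : Matrix (Fin r) (Fin r) ℝ := fun i j =>
  if j = la then (if i = la then 1 else 0) else ser (fun k => ys la c C s (y0 la c s j) k i) u

theorem Zm_last (u : ℝ) (i : Fin r) : Zm la c C s u i la = if i = la then 1 else 0 := by
  simp [Zm]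

theorem geo_ys (hC : 0 < C) (hs : 0 ≤ s) (j : Fin r) : ∃ M, ∀ i, Geo (fun k => ys la c C s (y0 la c s j) k i) M
    (Kc c C) := by
  refine ⟨∑ i, |y0 la c s j i|, fun i k => ?_⟩
  refine ys_bound la c s _ hC hs (fun i => ?_) (Finset.sum_nonneg fun a _ => abs_nonneg _) k i
  exact Finset.single_le_sum (f := fun i => |y0 la c s j i|) (fun a _ => abs_nonneg _)
    (Finset.mem_univ i)

theorem Zm_analytic (hC : 0 < C) (hs : 0 ≤ s) (i j : Fin r) : AnalyticAt ℝ (fun u => Zm la c C s u i j) 0 := by
  unfold Zm
  split_ifs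
  · exact analyticAt_const
  · exact analyticAt_const
  · obtain ⟨M, hM⟩ := geo_ys la c C s hC hs j
    exact (hM i).analyticAt (Kc_pos c C hC).le

variable {C s}

theorem Zm_hasDerivAt (hC : 0 < C) (hs : 0 < s) (hc : c la = s) {u : ℝ} (hu : Kc c C * |u| < 1)
    (i j : Fin r) (hj : j ≠ la) :
    ∃ Z' : ℝ, HasDerivAt (fun u => Zm la c C s u i j) Z' u ∧
      (C + u) * u * Z' = -(u * sh (fun a => Zm la c C s u a j) i) -
        if i = la then C * ∑ a, c a * Zm la c C s u a j else 0 := by
  obtain ⟨M, hM⟩ := geo_ys la c C s hC hs.le j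
  have hK := Kc_pos c C hC
  set Y : ℕ → Fin r → ℝ := ys la c C s (y0 la c s j) with hY
  have hZ : ∀ i, (fun u => Zm la c C s u i j) = ser (fun k => Y k i) := by
    intro i
    funext u
    simp [Zm, hj, hY]
  have hZu : ∀ i, Zm la c C s u i j = ser (fun k => Y k i) u := fun i => congrFun (hZ i) u
  have hSm : ∀ i, Sm (fun k => Y k i) u := fun i => (hM i).summable hK.le hu
  have hd := (hM i).hasDerivAt hK hu
  refine ⟨_, by rw [hZ i]; exact hd, ?_⟩
  -- the series of the derivative
  have hSd : Sm (fun k : ℕ => ((k : ℝ) + 1) * Y (k + 1) i) u := by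
    unfold Sm
    obtain ⟨q, hq1, hq2⟩ := exists_between hu
    refine Summable.of_norm_bounded (g := fun k : ℕ => M * Kc c C * (((k : ℝ) + 1) *
      (Kc c C * |u|) ^ k)) ?_ fun k => ?_
    · have h3 := (summable_pow_mul_geometric_of_norm_lt_one (R := ℝ) 1
        (show ‖Kc c C * |u|‖ < 1 by rwa [Real.norm_of_nonneg (by positivity)])).add
          (summable_geometric_of_lt_one (by positivity) hu)
      refine (h3.mul_left (M * Kc c C)).congr fun k => ?_
      simp only [pow_one]
      ring
    · rw [Real.norm_eq_abs, abs_mul, abs_mul, abs_pow]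
      have h4 : |(k : ℝ) + 1| = (k : ℝ) + 1 := abs_of_nonneg (by positivity)
      rw [h4]
      calc ((k : ℝ) + 1) * |Y (k + 1) i| * |u| ^ k
          ≤ ((k : ℝ) + 1) * (M * Kc c C ^ (k + 1)) * |u| ^ k := by
            gcongr
            exact hM i (k + 1)
        _ = _ := by rw [mul_pow]; ring
  have hSk : Sm (fun k : ℕ => (k : ℝ) * Y k i) u := by
    unfold Sm
    rw [← summable_nat_add_iff 1]
    refine (Summable.mul_left u hSd).congr fun k => ?_
    push_cast
    ring
  have h1 : u * ser (fun k : ℕ => ((k : ℝ) + 1) * Y (k + 1) i) u =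
      ser (fun k : ℕ => (k : ℝ) * Y k i) u := by
    rw [ser_succ hSk]
    simp
  have hSs : ∀ i, Sm (fun k => sh (Y k) i) u := by
    intro i
    unfold sh
    split_ifs with h
    · exact hSm _
    · simp [Sm, summable_zero]
  have hsS : ∀ i, ser (fun k => sh (Y k) i) u = sh (fun a => Zm la c C s u a j) i := by
    intro i
    unfold sh
    split_ifs with h
    · exact (hZu _).symm
    · simp [ser]
  -- sum with c
  have hSc : Sm (fun k => ∑ a, c a * Y k a) u := by
    unfold Sm
    have : ∀ a ∈ (Finset.univ : Finset (Fin r)), Summable fun k => c a * Y k a * u ^ k := fun a _ =>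
      (hSm a).mul (c a)
    refine (summable_sum this).congr fun k => ?_
    rw [Finset.sum_mul]
  have hcS : ser (fun k => ∑ a, c a * Y k a) u = ∑ a, c a * Zm la c C s u a j := by
    rw [ser_sum _ _ fun a _ => (hSm a).mul (c a)]
    exact Finset.sum_congr rfl fun a _ => by rw [ser_mul, hZu]
  have hc0 : ∑ a, c a * Y 0 a = 0 := by
    have : ∀ a, c a * Y 0 a = (if a = j then c a else 0) - if a = la then c a * (c j / s) else 0 := by
      intro a
      show c a * y0 la c s j a = _
      unfold y0
      split_ifs <;> ring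
    rw [Finset.sum_congr rfl fun a _ => this a, Finset.sum_sub_distrib, Finset.sum_ite_eq',
      Finset.sum_ite_eq', if_pos (Finset.mem_univ _), if_pos (Finset.mem_univ _), hc]
    field_simp
    ring
  have h2 : u * ser (fun k => ∑ a, c a * Y (k + 1) a) u = ∑ a, c a * Zm la c C s u a j := by
    rw [← hcS, ser_succ hSc, hc0, zero_add]
  -- coefficientwise
  have hrel : ∀ k : ℕ, C * (((k : ℝ) + 1) * Y (k + 1) i) + k * Y k i =
      -(sh (Y k) i) - if i = la then C * ∑ a, c a * Y (k + 1) a else 0 := fun k =>
    ys_rel la c (y0 la c s j) hC hs hc k i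
  have hser : C * ser (fun k : ℕ => ((k : ℝ) + 1) * Y (k + 1) i) u +
      ser (fun k : ℕ => (k : ℝ) * Y k i) u = -ser (fun k => sh (Y k) i) u -
        if i = la then C * ser (fun k => ∑ a, c a * Y (k + 1) a) u else 0 := by
    rw [← ser_mul, ← ser_add (hSd.mul C) hSk]
    have h5 : (fun k : ℕ => C * (((k : ℝ) + 1) * Y (k + 1) i) + k * Y k i) =
        fun k => (-1) * sh (Y k) i + (if i = la then -C else 0) * ∑ a, c a * Y (k + 1) a := by
      funext k
      rw [hrel]
      split_ifs <;> ring
    rw [h5, ser_add ((hSs i).mul _) ((show Sm (fun k => ∑ a, c a * Y (k + 1) a) u from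
      hSc.succ).mul _), ser_mul, ser_mul]
    split_ifs <;> ring
  have h6 : (C + u) * u * ser (fun k : ℕ => ((k : ℝ) + 1) * Y (k + 1) i) u =
      u * (C * ser (fun k : ℕ => ((k : ℝ) + 1) * Y (k + 1) i) u +
        ser (fun k : ℕ => (k : ℝ) * Y k i) u) := by
    rw [← h1]; ring
  rw [h6, hser, hsS]
  split_ifs with h
  · rw [← h2]; ring
  · ring

theorem Zm_zero_isUnit : IsUnit (Zm la c C s 0).det := by
  have h1 : ∀ i j, Zm la c C s 0 i j = (1 : Matrix (Fin r) (Fin r) ℝ) i j -
      (if i = la then (if j = la then 0 else c j / s) else 0) := by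
    intro i j
    unfold Zm
    by_cases hj : j = la
    · subst hj
      simp [Matrix.one_apply]
    · rw [if_neg hj, ser_zero]
      simp only [ys, y0, Matrix.one_apply, if_neg hj]
  let R : Matrix (Fin r) (Fin r) ℝ := fun i j => (1 : Matrix (Fin r) (Fin r) ℝ) i j +
      (if i = la then (if j = la then 0 else c j / s) else 0)
  refine Matrix.isUnit_det_of_left_inverse (B := R) ?_
  ext i j
  rw [Matrix.mul_apply]
  have h2 : ∀ x, R i x * Zm la c C s 0 x j =
      (if i = x then Zm la c C s 0 x j else 0) + (if i = la then (if x = la then 0 else c x / s) *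
        (if x = j then 1 else 0) else 0) := by
    intro x
    rw [h1 x j]
    simp only [R, Matrix.one_apply]
    by_cases h3 : i = la
    · by_cases h4 : x = la
      · simp only [h3, h4, if_true, add_zero, zero_mul]
        ring
      · simp only [if_pos h3, if_neg h4, sub_zero]
        split_ifs <;> ring
    · simp only [if_neg h3, add_zero]
      split_ifs <;> ring
  rw [Finset.sum_congr rfl fun x _ => h2 x, Finset.sum_add_distrib, Finset.sum_ite_eq,
    if_pos (Finset.mem_univ _), h1 i j]
  by_cases h3 : i = la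
  · simp only [if_pos h3, mul_ite, mul_one, mul_zero]
    rw [Finset.sum_ite_eq', if_pos (Finset.mem_univ _)]
    ring
  · simp [if_neg h3]

end Z


end Pool.Agent.MT100B.H34
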