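import Pool.Agent.Helper34_MTB.C3

/-!
# The conifold point (MT100B): half integral exponent
-/

set_option autoImplicit false

namespace Pool.Agent.MT100B.H34

open Filter Topology Set Matrix
open Pool.Agent.MT100.H34 (ser Geo Geo.nonneg Geo.summable Geo.analyticAt
  Geo.hasDerivAt eventually_small ser_zero Sm Sm.add Sm.mul ser_add ser_mul ser_succ Sm.succ ser_sum sh
  sh_sum sum_aux analyticAt_det analyticAt_inv const_of_deriv_zero Kc Kc_pos exists_ser exists_antideriv)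
open Pool.Agent.MT100 (MerG)

/-- `u G' + (1/2 - m) G = f`. -/
theorem exists_euler (m : ℕ) {f : ℝ → ℝ} (hf : AnalyticAt ℝ f 0) :
    ∃ G : ℝ → ℝ, AnalyticAt ℝ G 0 ∧ ∀ᶠ u in 𝓝 0, ∃ G', HasDerivAt G G' u ∧
      u * G' + (1 / 2 - (m : ℝ)) * G u = f u := by
  obtain ⟨a, M, K, hK, ha, hfa⟩ := exists_ser hf
  let b : ℕ → ℝ := fun k => a k / ((k : ℝ) - m + 1 / 2)
  have hne : ∀ k : ℕ, (k : ℝ) - m + 1 / 2 ≠ 0 := by
    intro k h
    have h1 : (2 * (k : ℤ) - 2 * m + 1 : ℤ) = 0 := by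
      have : (2 * (k : ℝ) - 2 * m + 1 : ℝ) = 0 := by linarith
      exact_mod_cast this
    omega
  have habs : ∀ k : ℕ, 1 / 2 ≤ |(k : ℝ) - m + 1 / 2| := by
    intro k
    rcases le_or_gt (m : ℝ) k with h | h
    · rw [abs_of_pos (by linarith)]
      linarith
    · have h1 : (k : ℝ) + 1 ≤ m := by exact_mod_cast (by exact_mod_cast h : k < m)
      rw [abs_of_neg (by linarith)]
      linarith
  have hb : Geo b (2 * M) K := by
    intro k
    show |a k / ((k : ℝ) - m + 1 / 2)| ≤ _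
    rw [abs_div, div_le_iff₀ (by linarith [habs k])]
    have h1 := ha k
    have h2 : 0 ≤ M * K ^ k := (abs_nonneg _).trans h1
    nlinarith [habs k]
  refine ⟨ser b, hb.analyticAt hK.le, ?_⟩
  filter_upwards [hfa, eventually_small K] with u h1 h2
  have h3 := hb.hasDerivAt hK h2
  refine ⟨_, h3, ?_⟩
  have hSb : Sm b u := hb.summable hK.le h2
  have hSa : Sm a u := ha.summable hK.le h2
  have hkb : ∀ k : ℕ, (k : ℝ) * b k = a k + (m - 1 / 2) * b k := by
    intro k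
    show (k : ℝ) * (a k / ((k : ℝ) - m + 1 / 2)) = a k + (m - 1 / 2) * (a k / ((k : ℝ) - m + 1 / 2))
    have h := hne k
    have h5 : (k : ℝ) = ((m : ℝ) - 1 / 2) + ((k : ℝ) - m + 1 / 2) := by ring
    generalize hd : (k : ℝ) - m + 1 / 2 = d at *
    rw [h5, add_mul, mul_div_cancel₀ _ h]
    ring
  have hSk : Sm (fun k : ℕ => (k : ℝ) * b k) u := by
    simp only [hkb]
    exact hSa.add (hSb.mul _)
  have h4 : u * ser (fun k : ℕ => ((k : ℝ) + 1) * b (k + 1)) u = ser (fun k : ℕ => (k : ℝ) * b k) u := by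
    rw [ser_succ hSk]
    simp
  rw [h4, h1]
  simp only [hkb]
  rw [ser_add hSa (hSb.mul _), ser_mul]
  ring

theorem exists_antideriv_half (m : ℕ) {f : ℝ → ℝ} (hf : AnalyticAt ℝ f 0) :
    ∃ G : ℝ → ℝ, AnalyticAt ℝ G 0 ∧
      ∀ᶠ u in 𝓝[>] 0, HasDerivAt (fun u => (u ^ m)⁻¹ * Real.sqrt u * G u)
        ((u ^ m)⁻¹ * (Real.sqrt u)⁻¹ * f u) u := by
  obtain ⟨G, hG, hG'⟩ := exists_euler m hf
  refine ⟨G, hG, ?_⟩
  filter_upwards [nhdsWithin_le_nhds hG', self_mem_nhdsWithin] with u ⟨G', h1, h2⟩ hu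
  have hu0 : (0 : ℝ) < u := hu
  have hs : Real.sqrt u ≠ 0 := (Real.sqrt_pos.mpr hu0).ne'
  have hss : Real.sqrt u * Real.sqrt u = u := Real.mul_self_sqrt hu0.le
  have h5 : HasDerivAt (fun u : ℝ => (u ^ m)⁻¹) (-(m * u ^ (m - 1)) / (u ^ m) ^ 2) u :=
    (hasDerivAt_pow m u).inv (pow_ne_zero _ hu0.ne')
  have h6 := (h5.mul (Real.hasDerivAt_sqrt hu0.ne')).mul h1
  refine h6.congr_deriv ?_
  rw [← h2]
  have hm : (m : ℝ) * u ^ (m - 1) = m * u ^ m / u := by
    rcases Nat.eq_zero_or_pos m with rfl | hm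
    · simp
    · obtain ⟨n, rfl⟩ := Nat.exists_eq_succ_of_ne_zero hm.ne'
      simp only [Nat.succ_eq_add_one, Nat.add_sub_cancel]
      field_simp
      ring
  rw [hm]
  simp only [Pi.mul_apply]
  have hum : (u ^ m : ℝ) ≠ 0 := pow_ne_zero _ hu0.ne'
  generalize u ^ m = p at *
  generalize Real.sqrt u = q at *
  subst hss
  field_simp
  ring

section main

variable {r : ℕ} (la : Fin r) (c : Fin r → ℝ) {C : ℝ} {s : ℕ}

/-- the coordinates -/
theorem coord_form (hC : 0 < C) (hc : c la = (s : ℝ) + 1 / 2)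
    (W : ℝ → Matrix (Fin r) (Fin r) ℝ)
    (hW : ∀ w, C < w → ∀ i q, HasDerivAt (fun x => W x i q)
      (-(sh (fun a => W w a q) i / w +
        (if i = la then C * ∑ a, c a * W w a q else 0) / (w * (w - C)))) w) :
    ∃ (κ : Matrix (Fin r) (Fin r) ℝ) (l : Fin r → ℝ) (G : Fin r → ℝ → ℝ),
      (∀ i, AnalyticAt ℝ (G i) 0) ∧ (∀ᶠ u in 𝓝[>] 0, G la u ≠ 0) ∧ (∀ q, κ la q = 0) ∧
      ∀ᶠ u in 𝓝[>] 0, ∀ i q, ((Zm la c C ((s : ℝ) + 1 / 2) u)⁻¹ * W (C + u)) i q =
        κ i q + ((u ^ s)⁻¹ * (Real.sqrt u)⁻¹ * G i u) * l q := by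
  set S : ℝ := (s : ℝ) + 1 / 2 with hSdef
  have hS : 0 < S := by positivity
  obtain ⟨θ, hθ, hode⟩ := coord_ode la c hC hS hc W hW
  have hCu : AnalyticAt ℝ (fun u : ℝ => (C + u)⁻¹) 0 :=
    (analyticAt_const.add analyticAt_id).inv (by simpa using hC.ne')
  obtain ⟨E, hE, hE'⟩ := exists_antideriv (f := fun u => (θ la u - S) * (C + u)⁻¹)
    (((hθ la).sub analyticAt_const).mul hCu)
  have hexp : AnalyticAt ℝ (fun u => Real.exp (-E u)) 0 := hE.neg.rexp
  have hF : ∀ i, ∃ G : ℝ → ℝ, AnalyticAt ℝ G 0 ∧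
      ∀ᶠ u in 𝓝[>] 0, HasDerivAt (fun u => (u ^ s)⁻¹ * Real.sqrt u * G u)
        ((u ^ s)⁻¹ * (Real.sqrt u)⁻¹ * (-(Real.exp (-E u) * (θ i u * (C + u)⁻¹)))) u := fun i =>
    exists_antideriv_half s (hexp.mul ((hθ i).mul hCu)).neg
  choose G0 hG0 hG0' using hF
  have hall : ∀ᶠ u in 𝓝[>] (0 : ℝ), 0 < u ∧ (∀ i q,
      HasDerivAt (fun u => ((Zm la c C S u)⁻¹ * W (C + u)) i q)
        (-(((Zm la c C S u)⁻¹ * W (C + u)) la q) *
          (θ i u / (C + u) + (if i = la then C * S / ((C + u) * u) else 0))) u) ∧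
      HasDerivAt E ((θ la u - S) * (C + u)⁻¹) u ∧ ∀ i,
      HasDerivAt (fun u => (u ^ s)⁻¹ * Real.sqrt u * G0 i u)
        ((u ^ s)⁻¹ * (Real.sqrt u)⁻¹ * (-(Real.exp (-E u) * (θ i u * (C + u)⁻¹)))) u := by
    filter_upwards [self_mem_nhdsWithin, hode, nhdsWithin_le_nhds hE', eventually_all.mpr hG0']
      with u h1 h2 h3 h4
    exact ⟨h1, h2, h3, h4⟩
  obtain ⟨δ, hδ, hδ'⟩ := mem_nhdsGT_iff_exists_Ioo_subset.mp hall
  have hδ0 : (0 : ℝ) < δ := hδ
  set X : ℝ → Matrix (Fin r) (Fin r) ℝ := fun u => (Zm la c C S u)⁻¹ * W (C + u) with hX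
  have hlast : ∀ q, ∃ b, ∀ u ∈ Ioo 0 δ, X u la q * (u ^ s * (Real.sqrt u * Real.exp (E u))) = b := by
    intro q
    refine const_of_deriv_zero fun u hu => ?_
    obtain ⟨h1, h2, h3, h4⟩ := hδ' hu
    have hu0 : (u : ℝ) ≠ 0 := h1.ne'
    have hs : Real.sqrt u ≠ 0 := (Real.sqrt_pos.mpr h1).ne'
    have hss : Real.sqrt u * Real.sqrt u = u := Real.mul_self_sqrt h1.le
    have hCu0 : C + u ≠ 0 := by positivity
    have h5 := (h2 la q).mul ((hasDerivAt_pow s u).mul ((Real.hasDerivAt_sqrt hu0).mul h3.exp))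
    refine h5.congr_deriv ?_
    have hm : (s : ℝ) * u ^ (s - 1) = s * u ^ s / u := by
      rcases Nat.eq_zero_or_pos s with rfl | hm
      · simp
      · obtain ⟨n, rfl⟩ := Nat.exists_eq_succ_of_ne_zero hm.ne'
        simp only [Nat.succ_eq_add_one, Nat.add_sub_cancel]
        field_simp
        ring
    simp only [if_true, Pi.mul_apply]
    rw [hm]
    show -(X u la q) * (θ la u / (C + u) + C * S / ((C + u) * u)) *
      (u ^ s * (Real.sqrt u * Real.exp (E u))) + X u la q * (s * u ^ s / u * (Real.sqrt u *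
        Real.exp (E u)) + u ^ s * (1 / (2 * Real.sqrt u) * Real.exp (E u) + Real.sqrt u *
          (Real.exp (E u) * ((θ la u - S) * (C + u)⁻¹)))) = 0
    have h7 : 1 / (2 * Real.sqrt u) = Real.sqrt u / (2 * u) := by
      rw [div_eq_div_iff (by positivity) (by positivity)]
      nlinarith
    rw [h7, hSdef]
    field_simp
    ring
  choose l hl using hlast
  have hb : ∀ q, ∀ u ∈ Ioo 0 δ, X u la q = (u ^ s)⁻¹ * (Real.sqrt u)⁻¹ * Real.exp (-E u) * l q := by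
    intro q u hu
    have hu0 : (u : ℝ) ≠ 0 := hu.1.ne'
    have hs : Real.sqrt u ≠ 0 := (Real.sqrt_pos.mpr hu.1).ne'
    rw [← hl q u hu, Real.exp_neg]
    have := (Real.exp_pos (E u)).ne'
    field_simp
  have hoth : ∀ i q, ∃ k, ∀ u ∈ Ioo 0 δ, i ≠ la → X u i q -
      ((u ^ s)⁻¹ * Real.sqrt u * G0 i u) * l q = k := by
    intro i q
    by_cases hi : i = la
    · exact ⟨0, fun u hu h => absurd hi h⟩
    have hk0 : ∀ u ∈ Ioo 0 δ, HasDerivAt (fun u => X u i q -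
        ((u ^ s)⁻¹ * Real.sqrt u * G0 i u) * l q) 0 u := by
      intro u hu
      obtain ⟨h1, h2, h3, h4⟩ := hδ' hu
      have h5 := (h2 i q).sub ((h4 i).mul_const (l q))
      refine h5.congr_deriv ?_
      have h6 := hb q u hu
      show -(X u la q) * (θ i u / (C + u) + if i = la then C * S / ((C + u) * u) else 0) - _ = 0
      rw [h6, if_neg hi]
      ring
    obtain ⟨k, hk⟩ := const_of_deriv_zero hk0
    exact ⟨k, fun u hu _ => hk u hu⟩
  choose κ hκ using hoth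
  refine ⟨fun i q => if i = la then 0 else κ i q, l,
    fun i => if i = la then (fun u => Real.exp (-E u)) else fun u => u * G0 i u, fun i => ?_, ?_,
    fun q => ?_, ?_⟩
  · by_cases hi : i = la
    · simpa [hi] using hexp
    · simp only [if_neg hi]
      exact analyticAt_id.mul (hG0 i)
  · filter_upwards with u
    simpa using (Real.exp_pos _).ne'
  · simp
  · filter_upwards [Ioo_mem_nhdsGT hδ0] with u hu i q
    have hs : Real.sqrt u ≠ 0 := (Real.sqrt_pos.mpr hu.1).ne'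
    have hss : Real.sqrt u * Real.sqrt u = u := Real.mul_self_sqrt hu.1.le
    show X u i q = _
    by_cases hi : i = la
    · subst hi
      simp only [if_true, zero_add]
      exact hb q u hu
    · simp only [if_neg hi]
      have h1 := hκ i q u hu hi
      have h2 : (u ^ s)⁻¹ * (Real.sqrt u)⁻¹ * (u * G0 i u) = (u ^ s)⁻¹ * Real.sqrt u * G0 i u := by
        have h3 : (Real.sqrt u)⁻¹ * u = Real.sqrt u := by
          rw [inv_mul_eq_iff_eq_mul₀ hs, hss]
        calc (u ^ s)⁻¹ * (Real.sqrt u)⁻¹ * (u * G0 i u) =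
            (u ^ s)⁻¹ * ((Real.sqrt u)⁻¹ * u) * G0 i u := by ring
          _ = _ := by rw [h3]
      rw [h2]
      linarith

/-- The structure at the conifold point, general form, half integral exponent. -/
theorem con_gen (hC : 0 < C) (hc : c la = (s : ℝ) + 1 / 2)
    (W : ℝ → Matrix (Fin r) (Fin r) ℝ)
    (hW : ∀ w, C < w → ∀ i q, HasDerivAt (fun x => W x i q)
      (-(sh (fun a => W w a q) i / w +
        (if i = la then C * ∑ a, c a * W w a q else 0) / (w * (w - C)))) w)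
    (hdet : ∀ w, C < w → IsUnit (W w).det) :
    ∃ (v l : Fin r → ℝ) (A : ℝ → Matrix (Fin r) (Fin r) ℝ),
      (∀ a i, AnalyticAt ℝ (fun u => A u a i) 0) ∧
      (∀ a, MerG fun u => Real.sqrt u * (W (C + u) *ᵥ v) a) ∧ l ⬝ᵥ v = 1 ∧
      ∀ᶠ u in 𝓝[>] 0, W (C + u) = A u + vecMulVec (W (C + u) *ᵥ v) l := by
  obtain ⟨κ, l, G, hG, hGne, hκ, hform⟩ := coord_form la c hC hc W hW
  set S : ℝ := (s : ℝ) + 1 / 2 with hSdef
  have hS : 0 < S := by positivity
  have hZan := Zm_analytic la c C S hC hS.le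
  have hZ0 : IsUnit (Zm la c C S 0).det := Zm_zero_isUnit la c
  have hdetZ : ∀ᶠ u in 𝓝 (0 : ℝ), (Zm la c C S u).det ≠ 0 :=
    (analyticAt_det hZan).continuousAt.eventually_ne hZ0.ne_zero
  have hWX : ∀ᶠ u in 𝓝[>] (0 : ℝ), ∀ i q, W (C + u) i q = ∑ j, Zm la c C S u i j *
      (κ j q + ((u ^ s)⁻¹ * (Real.sqrt u)⁻¹ * G j u) * l q) := by
    filter_upwards [hform, nhdsWithin_le_nhds hdetZ] with u hu hd i q
    have h1 : Zm la c C S u * ((Zm la c C S u)⁻¹ * W (C + u)) = W (C + u) := by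
      rw [← Matrix.mul_assoc, Matrix.mul_nonsing_inv _ (isUnit_iff_ne_zero.mpr hd), Matrix.one_mul]
    have h2 := congrFun (congrFun h1 i) q
    rw [Matrix.mul_apply] at h2
    rw [← h2]
    exact Finset.sum_congr rfl fun j _ => by rw [hu j q]
  obtain ⟨u1, hu1, hu1W, hu1Z, hu1G⟩ : ∃ u : ℝ, 0 < u ∧ (∀ i q, W (C + u) i q =
      ∑ j, Zm la c C S u i j * (κ j q + ((u ^ s)⁻¹ * (Real.sqrt u)⁻¹ * G j u) * l q)) ∧
      (Zm la c C S u).det ≠ 0 ∧ G la u ≠ 0 := by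
    have h0 : ∀ᶠ u in 𝓝[>] (0 : ℝ), (Zm la c C S u).det ≠ 0 := nhdsWithin_le_nhds hdetZ
    have h1 : ∀ᶠ u in 𝓝[>] (0 : ℝ), 0 < u := self_mem_nhdsWithin
    exact (h1.and (hWX.and (h0.and hGne))).exists
  set Γ : ℝ → Fin r → ℝ := fun u j => (u ^ s)⁻¹ * (Real.sqrt u)⁻¹ * G j u with hΓ
  set T : ℝ → Fin r → ℝ := fun u => Zm la c C S u *ᵥ Γ u with hT
  have hWdet : IsUnit (W (C + u1)).det := hdet _ (by linarith)
  set v : Fin r → ℝ := (W (C + u1))⁻¹ *ᵥ T u1 with hv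
  have hWv : W (C + u1) *ᵥ v = T u1 := by
    rw [hv, Matrix.mulVec_mulVec, Matrix.mul_nonsing_inv _ hWdet, Matrix.one_mulVec]
  have hWx : ∀ u, (∀ i q, W (C + u) i q = ∑ j, Zm la c C S u i j *
      (κ j q + ((u ^ s)⁻¹ * (Real.sqrt u)⁻¹ * G j u) * l q)) → ∀ x : Fin r → ℝ,
      W (C + u) *ᵥ x = Zm la c C S u *ᵥ fun j => (κ *ᵥ x) j + Γ u j * (l ⬝ᵥ x) := by
    intro u hu x
    funext i
    simp only [Matrix.mulVec, dotProduct, hΓ]
    simp only [hu, Finset.sum_mul]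
    rw [Finset.sum_comm]
    refine Finset.sum_congr rfl fun j _ => ?_
    rw [Finset.mul_sum, ← Finset.sum_add_distrib, Finset.mul_sum]
    exact Finset.sum_congr rfl fun q _ => by ring
  have hinj : (fun j => (κ *ᵥ v) j + Γ u1 j * (l ⬝ᵥ v)) = Γ u1 := by
    have h1 := hWx u1 hu1W v
    rw [hWv] at h1
    have h2 : Function.Injective (Zm la c C S u1).mulVec :=
      Matrix.mulVec_injective_iff_isUnit.mpr ((Matrix.isUnit_iff_isUnit_det _).mpr
        (isUnit_iff_ne_zero.mpr hu1Z))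
    exact (h2 h1).symm
  have hΓla : Γ u1 la ≠ 0 := by
    have hs : Real.sqrt u1 ≠ 0 := (Real.sqrt_pos.mpr hu1).ne'
    exact mul_ne_zero (mul_ne_zero (inv_ne_zero (pow_ne_zero _ hu1.ne')) (inv_ne_zero hs)) hu1G
  have hlv : l ⬝ᵥ v = 1 := by
    have h1 := congrFun hinj la
    have h2 : (κ *ᵥ v) la = 0 := by
      simp only [Matrix.mulVec, dotProduct, hκ, zero_mul, Finset.sum_const_zero]
    simp only [h2, zero_add] at h1
    exact mul_left_cancel₀ hΓla (h1.trans (mul_one _).symm)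
  have hκv : κ *ᵥ v = 0 := by
    rw [hlv] at hinj
    funext j
    have := congrFun hinj j
    simp only [mul_one] at this
    simpa using this
  have hVv : ∀ u, (∀ i q, W (C + u) i q = ∑ j, Zm la c C S u i j *
      (κ j q + ((u ^ s)⁻¹ * (Real.sqrt u)⁻¹ * G j u) * l q)) → W (C + u) *ᵥ v = T u := by
    intro u hu
    rw [hWx u hu v, hlv, hκv]
    simp [hT]
  refine ⟨v, l, fun u => Zm la c C S u * κ, fun a i => ?_, fun a => ?_, hlv, ?_⟩
  · simp only [Matrix.mul_apply]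
    exact Finset.analyticAt_fun_sum _ fun j _ => (hZan a j).mul analyticAt_const
  · refine ⟨s, fun u => ∑ j, Zm la c C S u a j * G j u,
      Finset.analyticAt_fun_sum _ fun j _ => (hZan a j).mul (hG j), ?_⟩
    filter_upwards [hWX, self_mem_nhdsWithin] with u hu hu0
    have hu0' : (0 : ℝ) < u := hu0
    have hs : Real.sqrt u ≠ 0 := (Real.sqrt_pos.mpr hu0').ne'
    rw [hVv u hu]
    simp only [hT, hΓ, Matrix.mulVec, dotProduct, Finset.mul_sum]
    refine Finset.sum_congr rfl fun j _ => ?_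
    field_simp
  · filter_upwards [hWX] with u hu
    ext i q
    rw [Matrix.add_apply, Matrix.vecMulVec_apply, hVv u hu, hu i q, Matrix.mul_apply]
    simp only [hT, hΓ, Matrix.mulVec, dotProduct]
    rw [Finset.sum_mul, ← Finset.sum_add_distrib]
    exact Finset.sum_congr rfl fun j _ => by ring

end main

end Pool.Agent.MT100B.H34
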