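import Pool.Agent.Helper34_MTB.C4
import Pool.Agent.Helper34_MT.Conif
import Pool.Agent.MT100B.Stmts

/-!
# Module CON of MT100B: the conifold point of the hypergeometric system of odd order
-/

set_option autoImplicit false

namespace Pool.Agent.MT100B.H34

open Filter Topology Set Matrix Polynomial
open Pool.Agent.MT100 (Dat MerG en ev)
open Pool.Agent.MT100.H34 (sh)

theorem cf_monic (D : Dat) : (cf D).Monic :=
  (MT100.H34.cf_monic D).mul (monic_X_add_C _)

theorem cf_natDegree (D : Dat) : (cf D).natDegree = ro D := by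
  unfold cf
  rw [Monic.natDegree_mul (MT100.H34.cf_monic D) (monic_X_add_C _), MT100.H34.cf_natDegree,
    natDegree_X_add_C]

theorem cf_nextCoeff (D : Dat) : (cf D).nextCoeff = D.s + 1 / 2 := by
  unfold cf
  rw [Monic.nextCoeff_mul (MT100.H34.cf_monic D) (monic_X_add_C _), MT100.H34.cf_nextCoeff,
    nextCoeff_X_add_C]

theorem cf_coeff_last (D : Dat) : (cf D).coeff (fl D) = D.s + 1 / 2 := by
  have h := cf_nextCoeff D
  rwa [nextCoeff_of_natDegree_pos (by rw [cf_natDegree]; exact Nat.succ_pos _), cf_natDegree] at h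

/-- The differential equation of the columns of the fundamental matrix in the form used here. -/
theorem W_ode (hana : AnaStmt) (D : Dat) (w : ℝ) (hw : (D.lam : ℝ) < w) (i q : Fin (ro D)) :
    HasDerivAt (fun x => W D x i q)
      (-(sh (fun a => W D w a q) i / w +
        (if i = fl D then (D.lam : ℝ) * ∑ a : Fin (ro D), (((cf D).coeff a : ℚ) : ℝ) * W D w a q
          else 0) / (w * (w - D.lam)))) w := by
  obtain ⟨_, _, _, h⟩ := hana D w hw
  refine (h i q).congr_deriv ?_
  have hl : (0 : ℝ) < D.lam := by exact_mod_cast D.lam_pos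
  have hw0 : (w : ℝ) ≠ 0 := by linarith
  have hwl : w - (D.lam : ℝ) ≠ 0 := by linarith
  rw [Matrix.mul_apply]
  have h1 : ∀ b, (A0 D).map (fun p => (p.map (algebraMap ℚ ℝ)).eval w⁻¹) i b * W D w b q =
      (if (i : ℕ) + 1 = b then (1 - D.lam * w⁻¹) * W D w b q else 0) +
      (if (i : ℕ) + 1 = ro D then (D.lam : ℝ) * w⁻¹ * ((((cf D).coeff b : ℚ) : ℝ) * W D w b q)
        else 0) := by
    intro b
    rw [Matrix.map_apply, A0]
    split_ifs <;> simp <;> ring
  rw [Finset.sum_congr rfl fun b _ => h1 b, Finset.sum_add_distrib]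
  have h2 : ∑ b : Fin (ro D), (if (i : ℕ) + 1 = b then (1 - D.lam * w⁻¹) * W D w b q else 0) =
      (1 - D.lam * w⁻¹) * sh (fun a => W D w a q) i := by
    unfold sh
    by_cases h3 : i.val + 1 < ro D
    · rw [dif_pos h3, Finset.sum_eq_single (⟨i.val + 1, h3⟩ : Fin (ro D))]
      · simp
      · intro b _ hb
        rw [if_neg]
        intro h4
        exact hb (Fin.ext h4.symm)
      · simp
    · rw [dif_neg h3, mul_zero]
      refine Finset.sum_eq_zero fun b _ => ?_
      rw [if_neg]
      have := b.isLt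
      omega
  have h3 : ((i : ℕ) + 1 = ro D) ↔ i = fl D := by
    rw [Fin.ext_iff]
    show (i : ℕ) + 1 = 2 * D.s + 1 ↔ (i : ℕ) = 2 * D.s
    omega
  rw [h2]
  by_cases h4 : i = fl D
  · simp only [if_pos h4, if_pos (h3.mpr h4), ← Finset.mul_sum]
    field_simp
  · simp only [if_neg h4, if_neg (fun h5 => h4 (h3.mp h5)), Finset.sum_const_zero]
    field_simp
    ring

/-- Module CON. -/
theorem con (hana : AnaStmt) : ConStmt := by
  intro D
  exact con_gen (fl D) (fun a => (((cf D).coeff a : ℚ) : ℝ)) (C := (D.lam : ℝ)) (s := D.s)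
    (by exact_mod_cast D.lam_pos) (by rw [cf_coeff_last]; push_cast; ring)
    (W D) (fun w hw i q => W_ode hana D w hw i q) fun w hw => (hana D w hw).2.1

end Pool.Agent.MT100B.H34
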